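import Mathlib

namespace Pool.Agent.Results.MP_1cad20_al.LeftDischinger

/-- `pw a n` is the power `a ^ (n + 1)` in a ring without identity -/
def pw {R : Type*} [NonUnitalRing R] (a : R) : ℕ → R
  | 0 => a
  | n + 1 => pw a n * a

/-- for every `a` there is `n ≥ 1` such that the left ideal `R a ^ n` is also a right ideal -/
def WeaklyLeftDuo (R : Type*) [NonUnitalRing R] : Prop :=
  ∀ a : R, ∃ n : ℕ, ∀ r s : R, ∃ t : R, r * pw a n * s = t * pw a n

/-- every left strongly regular element is strongly regular -/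
def IsLeftDischinger (R : Type*) [NonUnitalRing R] : Prop :=
  ∀ a : R, (∃ x, a = x * (a * a)) → (∃ x, a = x * (a * a)) ∧ ∃ y, a = a * a * y

lemma pw_coe {R : Type*} [NonUnitalRing R] (a : R) (n : ℕ) :
    ((pw a n : R) : Unitization ℤ R) = (a : Unitization ℤ R) ^ (n + 1) := by
  induction n with
  | zero => simp [pw]
  | succ n ih => rw [pw, Unitization.inr_mul, ih, ← pow_succ]

lemma pw_idem {R : Type*} [NonUnitalRing R] {f : R} (h : f * f = f) (n : ℕ) : pw f n = f := by
  induction n with
  | zero => rfl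
  | succ n ih => rw [pw, ih, h]

lemma pw_ann {R : Type*} [NonUnitalRing R] {y a : R} (h : y * a = 0) (n : ℕ) : pw y n * a = 0 := by
  cases n with
  | zero => exact h
  | succ n => rw [pw, mul_assoc, h, mul_zero]

lemma assoc5 {M : Type*} [Ring M] (a b c d e : M) :
    a * b * c * (d * e) = a * (b * c * d) * e := by simp only [mul_assoc]

theorem result (R : Type*) [NonUnitalRing R] (h : WeaklyLeftDuo R) : IsLeftDischinger R := by
  rintro a ⟨x, hx⟩
  refine ⟨⟨x, hx⟩, ?_⟩
  have idem : ∀ f : R, f * f = f → ∀ s, f * s * f = f * s := by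
    intro f hf s
    obtain ⟨n, hn⟩ := h f
    obtain ⟨t, ht⟩ := hn f s
    rw [pw_idem hf, hf] at ht
    rw [ht, mul_assoc, hf]
  have hea : x * a * a = a := by rw [mul_assoc, ← hx]
  obtain ⟨n, hn⟩ := h (x * a - x * a * (x * a))
  have hy : (x * a - x * a * (x * a)) * a = 0 := by
    rw [sub_mul, mul_assoc (x * a), hea, hea, sub_self]
  obtain ⟨t, ht⟩ := hn (x * a) x
  have h0 : x * a * pw (x * a - x * a * (x * a)) n * (x * a) = 0 := by
    rw [← mul_assoc, ht, mul_assoc, pw_ann hy, mul_zero]
  set e : Unitization ℤ R := ((x * a : R) : Unitization ℤ R) with he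
  have h1 : e * (e - e ^ 2) ^ (n + 1) * e = 0 := by
    have := congrArg (fun r : R => (r : Unitization ℤ R)) h0
    simp only [Unitization.inr_mul _ (x * a), Unitization.inr_mul _ _ (x * a), pw_coe,
      Unitization.inr_sub, Unitization.inr_zero, ← he] at this
    rw [sq]
    exact this
  have h2 : (e - e ^ 2) ^ (n + 3) = 0 := by
    have c1 : e - e ^ 2 = (1 - e) * e := by noncomm_ring
    have c2 : e - e ^ 2 = e * (1 - e) := by noncomm_ring
    calc (e - e ^ 2) ^ (n + 3) = (e - e ^ 2) * (e - e ^ 2) ^ (n + 1) * (e - e ^ 2) := by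
          rw [← pow_succ', ← pow_succ]
      _ = ((1 - e) * e) * (e - e ^ 2) ^ (n + 1) * (e * (1 - e)) := by rw [← c1, ← c2]
      _ = (1 - e) * (e * (e - e ^ 2) ^ (n + 1) * e) * (1 - e) := by
          exact assoc5 (M := Unitization ℤ R) (1 - e) e ((e - e ^ 2) ^ (n + 1)) e (1 - e)
      _ = 0 := by rw [h1, mul_zero, zero_mul]
  have h3 := isIdempotentElem_one_sub_one_sub_pow_pow e (n + 3) h2
  have hA : e * (a : Unitization ℤ R) = a := by rw [he, ← Unitization.inr_mul, hea]
  have hA' : ∀ k, e ^ k * (a : Unitization ℤ R) = a := by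
    intro k
    induction k with
    | zero => simp
    | succ k ih => rw [pow_succ, mul_assoc, hA, ih]
  have h4 : (1 - (1 - e ^ (n + 3)) ^ (n + 3)) * (a : Unitization ℤ R) = a := by
    rw [sub_mul, one_mul, pow_succ (1 - e ^ (n + 3)), mul_assoc, sub_mul, one_mul, hA', sub_self,
      mul_zero, sub_zero]
  obtain ⟨w, hw⟩ : ∃ w : R, 1 - (1 - e ^ (n + 3)) ^ (n + 3) = ((w * a : R) : Unitization ℤ R) := by
    have := geom_sum_mul_neg (1 - e ^ (n + 3)) (n + 3)
    rw [sub_sub_cancel] at this
    rw [← this]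
    generalize (∑ i ∈ Finset.range (n + 3), (1 - e ^ (n + 3)) ^ i) = z'
    rw [pow_succ e, ← mul_assoc]
    generalize z' * e ^ (n + 2) = z
    refine ⟨z.fst • x + z.snd * x, ?_⟩
    rw [he, Unitization.inr_mul, Unitization.inr_mul]
    refine (mul_assoc (G := Unitization ℤ R) z x a).symm.trans ?_
    congr 1
    conv_lhs => rw [← Unitization.inl_fst_add_inr_snd_eq z]
    rw [add_mul, Unitization.inl_mul_inr, Unitization.inr_add, Unitization.inr_mul]
  rw [hw] at h3 h4
  have f1 : w * a * (w * a) = w * a :=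
    Unitization.inr_injective (R := ℤ) (by rw [Unitization.inr_mul]; exact h3)
  have f2 : w * a * a = a :=
    Unitization.inr_injective (R := ℤ) (by rw [Unitization.inr_mul]; exact h4)
  have f3 : a * (w * a) = a := by
    have := idem _ f1 a
    rwa [f2] at this
  have g1 : a * w * (a * w) = a * w := by rw [← mul_assoc, mul_assoc a w a, f3]
  have g2 := idem _ g1 a
  rw [mul_assoc a w a, f3] at g2
  exact ⟨w, by rw [mul_assoc, g2]⟩

end Pool.Agent.Results.MP_1cad20_al.LeftDischinger
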